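import Pool.Agent.W593.IR.Stm3

/-! IR3-FIN5 (helper199): the linear combination, `k = 5`. -/

set_option autoImplicit false

namespace Pool.Agent.W199.IR

open Finset Pool.Agent.W593.IR

/-- Elimination and interpolation. -/
theorem piece (w0 w1 w2 w3 w4 w5 u0 u1 u2 u3 u4 H0 H1 H2 H3 c0 d0 c1 d1 c2 d2 c3 d3 lo hi T : ℝ)
    (hw0 : 0 ≤ w0) (hw4 : 0 ≤ w4) (h34 : w4 ≤ w3) (h23 : w3 ≤ w2) (h12 : w2 ≤ w1)
    (hd2 : 0 ≤ d2) (hd2' : d2 ≤ 1) (hd3 : 0 ≤ d3) (hd3' : d3 ≤ 1)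
    (e0 : c0 + d0 * H0 ≤ u0) (e1 : c1 ≤ u1 + d1 * H0) (e2 : c2 ≤ u2 + d2 * H1)
    (e3 : c3 ≤ u3 + d3 * H2) (e4 : 4 ≤ u4 + H3)
    (s1 : H1 ≤ H0 + u1) (s2 : H2 ≤ H1 + u2) (s3 : H3 ≤ H2 + u3)
    (hlo : lo ≤ H0) (hhi : H0 ≤ hi) (hlt : lo < hi)
    (Tlo : T ≤ w0 * (c0 + d0 * lo) +
      (w1 - (((w3 - w4) * d3 + w4) + (w2 - ((w3 - w4) * d3 + w4)) * d2)) * (c1 - d1 * lo) +
      (w2 - ((w3 - w4) * d3 + w4)) * c2 + (w3 - w4) * c3 + w4 * 4 + w5 -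
      (((w3 - w4) * d3 + w4) + (w2 - ((w3 - w4) * d3 + w4)) * d2) * lo)
    (Thi : T ≤ w0 * (c0 + d0 * hi) +
      (w1 - (((w3 - w4) * d3 + w4) + (w2 - ((w3 - w4) * d3 + w4)) * d2)) * (c1 - d1 * hi) +
      (w2 - ((w3 - w4) * d3 + w4)) * c2 + (w3 - w4) * c3 + w4 * 4 + w5 -
      (((w3 - w4) * d3 + w4) + (w2 - ((w3 - w4) * d3 + w4)) * d2) * hi) :
    T ≤ w0 * u0 + w1 * u1 + w2 * u2 + w3 * u3 + w4 * u4 + w5 := by
  obtain ⟨B3, hB3⟩ : ∃ B3 : ℝ, B3 = (w3 - w4) * d3 + w4 := ⟨_, rfl⟩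
  rw [← hB3] at Tlo Thi
  obtain ⟨B2, hB2⟩ : ∃ B2 : ℝ, B2 = B3 + (w2 - B3) * d2 := ⟨_, rfl⟩
  rw [← hB2] at Tlo Thi
  have hB3n : 0 ≤ B3 := by
    rw [hB3]
    have := mul_nonneg (sub_nonneg.2 h34) hd3
    linarith
  have hB3w : B3 ≤ w2 := by
    rw [hB3]
    have := mul_le_mul_of_nonneg_left hd3' (sub_nonneg.2 h34)
    linarith
  have hB2n : 0 ≤ B2 := by
    rw [hB2]
    have := mul_nonneg (sub_nonneg.2 hB3w) hd2
    linarith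
  have hB2w : B2 ≤ w1 := by
    rw [hB2]
    have := mul_le_mul_of_nonneg_left hd2' (sub_nonneg.2 hB3w)
    linarith
  have a4 := mul_nonneg hw4 (sub_nonneg.2 e4)
  have b4 := mul_nonneg hw4 (sub_nonneg.2 s3)
  have a3 := mul_nonneg (sub_nonneg.2 h34) (sub_nonneg.2 e3)
  have b3 := mul_nonneg hB3n (sub_nonneg.2 s2)
  have a2 := mul_nonneg (sub_nonneg.2 hB3w) (sub_nonneg.2 e2)
  have b2 := mul_nonneg hB2n (sub_nonneg.2 s1)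
  have a1 := mul_nonneg (sub_nonneg.2 hB2w) (sub_nonneg.2 e1)
  have a0 := mul_nonneg hw0 (sub_nonneg.2 e0)
  have key : w0 * (c0 + d0 * H0) + (w1 - B2) * (c1 - d1 * H0) + (w2 - B3) * c2 + (w3 - w4) * c3 +
      w4 * 4 + w5 - B2 * H0 ≤ w0 * u0 + w1 * u1 + w2 * u2 + w3 * u3 + w4 * u4 + w5 := by
    have e : (w0 * u0 + w1 * u1 + w2 * u2 + w3 * u3 + w4 * u4 + w5) -
        (w0 * (c0 + d0 * H0) + (w1 - B2) * (c1 - d1 * H0) + (w2 - B3) * c2 + (w3 - w4) * c3 +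
      w4 * 4 + w5 - B2 * H0) = w4 * (u4 + H3 - 4) + w4 * (H2 + u3 - H3) +
        (w3 - w4) * (u3 + d3 * H2 - c3) + B3 * (H1 + u2 - H2) + (w2 - B3) * (u2 + d2 * H1 - c2) +
        B2 * (H0 + u1 - H1) + (w1 - B2) * (u1 + d1 * H0 - c1) + w0 * (u0 - (c0 + d0 * H0)) := by
      rw [hB2, hB3]
      ring
    linarith
  refine le_trans ?_ key
  have h1 := mul_le_mul_of_nonneg_right Tlo (sub_nonneg.2 hhi)
  have h2 := mul_le_mul_of_nonneg_right Thi (sub_nonneg.2 hlo)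
  have h3 : (0 : ℝ) < hi - lo := sub_pos.2 hlt
  refine le_of_mul_le_mul_right ?_ h3
  calc T * (hi - lo) = T * (hi - H0) + T * (H0 - lo) := by ring
    _ ≤ _ := add_le_add h1 h2
    _ = _ := by ring

theorem fin5 : S_FIN5 := by
  intro hCHJ hCH0 hSM hPH ρ h1 h2 u H hs
  obtain ⟨p2, p3, p4⟩ := hPH ρ h1 h2
  obtain ⟨T, hT⟩ : ∃ T : ℝ, T = min (1 - ρ ^ 5) ((1 - ρ / 5) ^ 5) := ⟨_, rfl⟩
  have h5 : ((5 : ℕ) : ℝ) = 5 := by norm_num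
  rw [← hT] at p2 p3 p4
  rw [h5, ← hT]
  have hTa : T ≤ 1 - ρ ^ 5 := by rw [hT]; exact min_le_left _ _
  have hTb : T ≤ (1 - ρ / 5) ^ 5 := by rw [hT]; exact min_le_right _ _
  obtain ⟨q1, q2, q3, q4, q5, q6⟩ := hCHJ u H hs
  obtain ⟨r1, r2, r3, r4⟩ := hCH0 5 (Or.inr rfl) u H hs
  have r4 := r4 rfl
  have hsm := hSM 5 (Or.inr rfl) u H hs
  have hρ : 0 < ρ := by linarith
  have hs0 : 0 < 1 - ρ := by linarith
  -- the weights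
  have e : ∑ j ∈ range (5 + 1), ((5 : ℕ).choose j : ℝ) * (1 - ρ) ^ j * ρ ^ (5 - j) * u j =
      ρ ^ 5 * u 0 + (5 * (1 - ρ) * ρ ^ 4) * u 1 + (10 * (1 - ρ) ^ 2 * ρ ^ 3) * u 2 +
      (10 * (1 - ρ) ^ 3 * ρ ^ 2) * u 3 + (5 * (1 - ρ) ^ 4 * ρ) * u 4 + (1 - ρ) ^ 5 := by
    have hu5 := hs.uk
    simp only [Finset.sum_range_succ, Finset.sum_range_zero]
    have c0 : ((5 : ℕ).choose 0 : ℝ) = 1 := by norm_num
    have c1 : ((5 : ℕ).choose 1 : ℝ) = 5 := by norm_num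
    have c2 : ((5 : ℕ).choose 2 : ℝ) = 10 := by norm_num [Nat.choose]
    have c3 : ((5 : ℕ).choose 3 : ℝ) = 10 := by norm_num [Nat.choose]
    have c4 : ((5 : ℕ).choose 4 : ℝ) = 5 := by norm_num [Nat.choose]
    have c5 : ((5 : ℕ).choose 5 : ℝ) = 1 := by norm_num
    rw [c0, c1, c2, c3, c4, c5, hu5]
    norm_num
  rw [e]
  have hPm : ∀ m : ℕ, Ph 5 m ρ =
      ρ ^ 5 * (if m ≤ 0 then 1 else (1 - 1 / (m : ℝ)) ^ m) +
      (5 * (1 - ρ) * ρ ^ 4) * (if m ≤ 1 then 1 else (1 - 1 / (m : ℝ)) ^ (m - 1)) +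
      (10 * (1 - ρ) ^ 2 * ρ ^ 3) * (if m ≤ 2 then 1 else (1 - 1 / (m : ℝ)) ^ (m - 2)) +
      (10 * (1 - ρ) ^ 3 * ρ ^ 2) * (if m ≤ 3 then 1 else (1 - 1 / (m : ℝ)) ^ (m - 3)) +
      (5 * (1 - ρ) ^ 4 * ρ) * (if m ≤ 4 then 1 else (1 - 1 / (m : ℝ)) ^ (m - 4)) +
      (1 - ρ) ^ 5 * (if m ≤ 5 then 1 else (1 - 1 / (m : ℝ)) ^ (m - 5)) := by
    intro m
    unfold Ph
    simp only [Finset.sum_range_succ, Finset.sum_range_zero]
    have c0 : ((5 : ℕ).choose 0 : ℝ) = 1 := by norm_num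
    have c1 : ((5 : ℕ).choose 1 : ℝ) = 5 := by norm_num
    have c2 : ((5 : ℕ).choose 2 : ℝ) = 10 := by norm_num [Nat.choose]
    have c3 : ((5 : ℕ).choose 3 : ℝ) = 10 := by norm_num [Nat.choose]
    have c4 : ((5 : ℕ).choose 4 : ℝ) = 5 := by norm_num [Nat.choose]
    have c5 : ((5 : ℕ).choose 5 : ℝ) = 1 := by norm_num
    rw [c0, c1, c2, c3, c4, c5]
    simp only [Nat.sub_zero, Nat.sub_self, pow_zero, pow_one, one_mul, mul_one]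
    norm_num
  have P2 := hPm 2
  have P3 := hPm 3
  have P4 := hPm 4
  norm_num at P2 P3 P4
  have hw0 : 0 ≤ ρ ^ 5 := by positivity
  have hw4 : 0 ≤ 5 * (1 - ρ) ^ 4 * ρ := by positivity
  have h34 : 5 * (1 - ρ) ^ 4 * ρ ≤ 10 * (1 - ρ) ^ 3 * ρ ^ 2 := by
    have := mul_nonneg (mul_nonneg (pow_nonneg hs0.le 3) hρ.le) (show 0 ≤ 2 * ρ - (1 - ρ) by linarith)
    nlinarith
  have h23 : 10 * (1 - ρ) ^ 3 * ρ ^ 2 ≤ 10 * (1 - ρ) ^ 2 * ρ ^ 3 := by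
    have := mul_nonneg (mul_nonneg (pow_nonneg hs0.le 2) (pow_nonneg hρ.le 2))
      (show 0 ≤ ρ - (1 - ρ) by linarith)
    nlinarith
  have h12 : 10 * (1 - ρ) ^ 2 * ρ ^ 3 ≤ 5 * (1 - ρ) * ρ ^ 4 := by
    have := mul_nonneg (mul_nonneg hs0.le (pow_nonneg hρ.le 3))
      (show 0 ≤ ρ - 2 * (1 - ρ) by linarith)
    nlinarith
  -- `u j ≥ j - H (j-1)`
  have st : ∀ j, j < 5 → ((j + 1 : ℕ) : ℝ) ≤ u (j + 1) + 1 * H j := by
    intro j hj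
    have a := hs.st j hj
    have b := hs.h0 (j + 1) (by omega)
    linarith
  have s1 : H 1 ≤ H 0 + u 1 := hs.st 0 (by norm_num)
  have s2 : H 2 ≤ H 1 + u 2 := hs.st 1 (by norm_num)
  have s3 : H 3 ≤ H 2 + u 3 := hs.st 2 (by norm_num)
  have t1 := st 0 (by norm_num)
  have t2 := st 1 (by norm_num)
  have t3 := st 2 (by norm_num)
  have t4 := st 3 (by norm_num)
  norm_num at t1 t2 t3 t4
  have hH0 : 0 ≤ H 0 := by
    have := hs.h0 0 (by norm_num)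
    simpa using this
  rcases le_or_gt (H 0) (1 / 2) with g1 | g1
  · refine piece (ρ ^ 5) (5 * (1 - ρ) * ρ ^ 4) (10 * (1 - ρ) ^ 2 * ρ ^ 3)
      (10 * (1 - ρ) ^ 3 * ρ ^ 2) (5 * (1 - ρ) ^ 4 * ρ) ((1 - ρ) ^ 5) (u 0) (u 1) (u 2) (u 3) (u 4)
      (H 0) (H 1) (H 2) (H 3) 0 (1 / 2) 1 1 2 1 3 1 0 (1 / 2) T hw0 hw4 h34 h23 h12
      (by norm_num) (by norm_num) (by norm_num) (by norm_num) (by linarith [r1 g1])
      (by linarith) (by linarith) (by linarith) (by linarith) s1 s2 s3 hH0 g1 (by norm_num) ?_ ?_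
    · refine hTa.trans (le_of_eq ?_)
      ring
    · rw [P2] at p2
      refine p2.trans (le_of_eq ?_)
      ring
  rcases le_or_gt (H 0) (8 / 9) with g2 | g2
  · refine piece (ρ ^ 5) (5 * (1 - ρ) * ρ ^ 4) (10 * (1 - ρ) ^ 2 * ρ ^ 3)
      (10 * (1 - ρ) ^ 3 * ρ ^ 2) (5 * (1 - ρ) ^ 4 * ρ) ((1 - ρ) ^ 5) (u 0) (u 1) (u 2) (u 3) (u 4)
      (H 0) (H 1) (H 2) (H 3) (4 / 21) (5 / 42) (4 / 7) (1 / 7) 2 1 3 1 (1 / 2) (8 / 9) T
      hw0 hw4 h34 h23 h12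
      (by norm_num) (by norm_num) (by norm_num) (by norm_num) (r2 g1.le g2)
      (by linarith) (by linarith) (by linarith) (by linarith) s1 s2 s3 g1.le g2 (by norm_num) ?_ ?_
    · rw [P2] at p2
      refine p2.trans (le_of_eq ?_)
      ring
    · rw [P3] at p3
      refine p3.trans (le_of_eq ?_)
      ring
  rcases le_or_gt (H 0) (81 / 64) with g3 | g3
  · refine piece (ρ ^ 5) (5 * (1 - ρ) * ρ ^ 4) (10 * (1 - ρ) ^ 2 * ρ ^ 3)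
      (10 * (1 - ρ) ^ 3 * ρ ^ 2) (5 * (1 - ρ) ^ 4 * ρ) ((1 - ρ) ^ 5) (u 0) (u 1) (u 2) (u 3) (u 4)
      (H 0) (H 1) (H 2) (H 3) (54 / 217) (139 / 2604) (108 / 217) (13 / 217) (18 / 17) (5 / 17) 3 1
      (8 / 9) (81 / 64) T hw0 hw4 h34 h23 h12
      (by norm_num) (by norm_num) (by norm_num) (by norm_num) (r3 g2.le g3)
      (by linarith) (by linarith) (by linarith) (by linarith) s1 s2 s3 g2.le g3 (by norm_num) ?_ ?_
    · rw [P3] at p3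
      refine p3.trans (le_of_eq ?_)
      ring
    · rw [P4] at p4
      refine p4.trans (le_of_eq ?_)
      ring
  rcases le_or_gt (H 0) (1024 / 625) with g4 | g4
  · refine piece (ρ ^ 5) (5 * (1 - ρ) * ρ ^ 4) (10 * (1 - ρ) ^ 2 * ρ ^ 3)
      (10 * (1 - ρ) ^ 3 * ρ ^ 2) (5 * (1 - ρ) ^ 4 * ρ) ((1 - ρ) ^ 5) (u 0) (u 1) (u 2) (u 3) (u 4)
      (H 0) (H 1) (H 2) (H 3) (20736 / 74555) (9019 / 298220) (6912 / 14911) (491 / 14911)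
      (576 / 721) (101 / 721) (48 / 31) (11 / 31)
      (81 / 64) (1024 / 625) T hw0 hw4 h34 h23 h12
      (by norm_num) (by norm_num) (by norm_num) (by norm_num) (r4 g3.le g4)
      (by linarith) (by linarith) (by linarith) (by linarith) s1 s2 s3 g3.le g4 (by norm_num) ?_ ?_
    · rw [P4] at p4
      refine p4.trans (le_of_eq ?_)
      ring
    · refine hTb.trans (le_of_eq ?_)
      ring
  · have v1 := hsm 1 (by norm_num) (by norm_num)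
    have v2 := hsm 2 (by norm_num) (by norm_num)
    have v3 := hsm 3 (by norm_num) (by norm_num)
    have v4 := hsm 4 (by norm_num) (by norm_num)
    norm_num at v1 v2 v3 v4
    have v0 : (1024 / 3125 : ℝ) ≤ u 0 := by
      have := hs.h1 0 (by norm_num)
      push_cast at this
      linarith
    have x0 := mul_le_mul_of_nonneg_left v0 hw0
    have x1 := mul_le_mul_of_nonneg_left v1 (show 0 ≤ 5 * (1 - ρ) * ρ ^ 4 by positivity)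
    have x2 := mul_le_mul_of_nonneg_left v2 (show 0 ≤ 10 * (1 - ρ) ^ 2 * ρ ^ 3 by positivity)
    have x3 := mul_le_mul_of_nonneg_left v3 (show 0 ≤ 10 * (1 - ρ) ^ 3 * ρ ^ 2 by positivity)
    have x4 := mul_le_mul_of_nonneg_left v4 hw4
    refine hTb.trans ?_
    refine le_trans (le_of_eq ?_) (add_le_add (add_le_add (add_le_add (add_le_add (add_le_add x0 x1)
      x2) x3) x4) le_rfl)
    ring

end Pool.Agent.W199.IR
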